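import Pool.Agent.R887.AbsD

/-!
Finite multi-valued maps from a fixed variety: bounds for the rank one subsheaves of the pull backs of
the tensor powers of the cotangent sheaf to all finite covers, and special covers.
-/

set_option autoImplicit false

open FF Pool.Agent.W602.GT Pool.Agent.Y172 Pool.Agent.R887

/-- Let `X'` be a normal complex projective variety of dimension `n ≥ 1`, with generic point `y'`,
and `Bd'` a finite set of prime divisors of `X'` (it may be empty). There is a constant `C`, which
depends only on `X'` and `Bd'`, such that the following holds for all normal projective varieties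
`X` of dimension `n`, with generic point `y`, and sets `Bd` of places of the function field of `X`,
for instance the empty set, or the set of the places without centre on an open subset `U` of `X`
(except for the notions of Kodaira dimension and special varieties, only the prime divisors of `X` in
`Bd` matter).

(1) Let `X' ← X'' → X` be a multi-valued map, with a generically finite projection `p` to `X'` and
`f : X'' ⇢ X` dominant, such that the prime divisors over `X''` which `f` maps to prime divisors `P`
of `X` are mapped to prime divisors `P'` of `X'` by `p`, and if `P'` is not in `Bd'`, then `P` is not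
in `Bd` and `p` is unramified there: for instance, two finite morphisms which are given by
`U' ← U'' → U`, the first one étale. Suppose that the intersection number of `n - 1` pull backs by
`f` of hyperplane sections of `X` and one pull back by `p` of a hyperplane section of `X'` is at most
`c deg f`. Then `c C` bounds the rank one subsheaves of the tensor powers of `Ω¹(log Bd)` absolutely:
for all finite covers `g : Z → X` (arbitrarily ramified), all `r` and all rank one subsheaves `L` of
`g^* Ω¹_X(log Bd)^(⊗ r)`, the divisor `c C r g^* H - L` on `Z` is pseudo-effective, where `H` is a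
hyperplane section of `X`.

(2) Suppose that there are such maps for all `c > 0`. Then for all finite covers `g : Z → X` and all
rank one subsheaves `L` of `g^* Ω¹_X(log Bd)^(⊗ r)`, the divisor `-L` is pseudo-effective. If `Z` is
a normal projective variety with generic point `z` and function field `M`, `Z → X` is finite, `BdM` a
set of places of `M`, and if the prime divisors of `Z` which lie over prime divisors of `X` not in
`Bd` are not in `BdM` and unramified, then the same is true for the rank one subsheaves of the pull
backs of the tensor powers of `Ω¹_Z(log BdM)` to all finite covers of `Z`, the rank one subsheaves of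
the tensor powers of `Ω¹(log)` on the smooth models of `Z` have Kodaira dimension at most `0`, and `Z`
(or its open subset) is special in the sense of Campana. (For `Z = X` this is a statement on `X`.) -/
theorem Pool.Agent.R887.Out.absolute_cover_bounds
    {K' : Type} [Field K'] [Algebra ℂ K'] {N' n : ℕ} {y' : Fin (N' + 1) → K'}
    (hy' : NormalModel y') (hn' : Algebra.trdeg ℂ K' = n) (hn0 : 0 < n)
    {Bd' : Set (Place ℂ K')} (hBd' : Bd'.Finite) :
    ∃ C : ℝ, 0 ≤ C ∧ ∀ (K : Type) [Field K] [Algebra ℂ K] (N : ℕ) (y : Fin (N + 1) → K)
      (Bd : Set (Place ℂ K)), NormalModel y → Algebra.trdeg ℂ K = n →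
      (∀ (L : Type) [Field L] [Algebra ℂ L] (φ : K →ₐ[ℂ] L) (ψ : K' →ₐ[ℂ] L),
        FiniteDimensional ψ.fieldRange L → FiniteEtale φ ψ y Bd y' Bd' →
        ∀ c : ℝ, MultiDegreeLe φ ψ y y' (n - 1) 1 c → AbsTensorLe y Bd (c * C)) ∧
      ((∀ c : ℝ, 0 < c → ∃ (L : Type) (_ : Field L) (_ : Algebra ℂ L) (φ : K →ₐ[ℂ] L)
        (ψ : K' →ₐ[ℂ] L), FiniteDimensional ψ.fieldRange L ∧ FiniteEtale φ ψ y Bd y' Bd' ∧
          MultiDegreeLe φ ψ y y' (n - 1) 1 c) →
        AbsTensorLe y Bd 0 ∧
        ∀ (M : Type) [Field M] [Algebra ℂ M] (N₁ : ℕ) (z : Fin (N₁ + 1) → M)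
          (BdM : Set (Place ℂ M)) (θ : K →ₐ[ℂ] M), NormalModel z → Algebra.trdeg ℂ M = n →
          FiniteDimensional θ.fieldRange M → FiniteEtale (AlgHom.id ℂ M) θ z BdM y Bd →
          AbsTensorLe z BdM 0 ∧
          (∀ (r : ℕ) (σ : Tensor M r), σ ≠ 0 → ¬ TensorKodairaGe n BdM σ 1) ∧
          Special n BdM) := by
  obtain ⟨C, hC, h⟩ := exists_abs hy' hn' hBd'
  refine ⟨C, hC, fun K _ _ N y Bd hy hn => ⟨fun L _ _ φ ψ hψ hfe c hc =>
    (abs_step hy hn hn0 hy' hn' φ ψ hψ hfe hc h).2, fun hseq => ?_⟩⟩
  have h1 : AbsTensorLe y Bd 0 := by
    refine abs_of_forall fun ε hε => ?_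
    rw [zero_add]
    obtain ⟨L, _, _, φ, ψ, hψ, hfe, hc⟩ := hseq (ε / (C + 1)) (by positivity)
    refine (abs_step hy hn hn0 hy' hn' φ ψ hψ hfe hc h).2.mono ?_
    rw [div_mul_eq_mul_div, div_le_iff₀ (by positivity)]
    nlinarith
  refine ⟨h1, fun M _ _ N₁ z BdM θ hz hnM hθ hfe => ?_⟩
  have h2 := abs_cover hy hn hn0 h1 hz hnM θ hθ hfe
  exact ⟨h2, abs_special hz hnM hn0 h2⟩
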